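import Pool.Agent.Lib.MP_6a3dac_ag.Fam.GLDefs

/-!
# Families which are toroidal in codimension one
-/

set_option autoImplicit false

namespace Pool.Agent.Lib.MP_6a3dac_ag.Tor

open MvPolynomial CategoryTheory Limits AlgebraicGeometry NumberField IsDedekindDomain Filter
open Pool.Agent.Lib.MP_6a3dac_ag.DNF Pool.Agent.Lib.MP_6a3dac_ag.Bert
open Pool.Agent.Lib.MP_6a3dac_ag.Fam

section Local

variable {R σ : Type} [CommRing R] [DecidableEq σ] [Fintype σ]

/-- The scheme defined by `J` is toroidal over the ring `R` at the point `𝔮`: near this point it is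
defined in a smooth scheme of relative dimension `m + 1` by the equation
`w * ∏ g i ^ e i = u * h` with units `w`, `u` and the element `h` of `R`; the ideals `K i` are
`(J, g i)`; and the differentials of those `g i` which vanish at the point are linearly
independent. -/
def TorPt (m : ℕ) {s : ℕ} (e : Fin s → ℕ) (h : R) (J : Ideal (MvPolynomial σ R))
    (K : Fin s → Ideal (MvPolynomial σ R)) (𝔮 : Ideal (MvPolynomial σ R)) : Prop :=
  ∃ (U : Std R σ) (F w u : MvPolynomial σ R) (g : Fin s → MvPolynomial σ R) (I : Finset (Fin s))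
    (κ : I → σ), IsPres J U F ∧ U.T.card = m + 1 ∧ U.h ∉ 𝔮 ∧
    F = w * ∏ i, g i ^ e i - u * C h ∧ w ∉ 𝔮 ∧ u ∉ 𝔮 ∧
    (∀ i, g i ∈ K i ∧ ∃ a, a ∉ 𝔮 ∧ ∀ f ∈ K i, a * f ∈ J ⊔ Ideal.span {g i}) ∧
    (∀ i, i ∈ I ↔ g i ∈ 𝔮) ∧ (∀ i, κ i ∈ U.T) ∧
    (Matrix.of fun i i' : I => U.vf (κ i) (g i')).det ∉ 𝔮

/-- The scheme defined by `J` is smooth at `𝔮` if `h` is not zero there, and toroidal there
otherwise. -/
def TorGood (m : ℕ) {s : ℕ} (e : Fin s → ℕ) (h : R) (J : Ideal (MvPolynomial σ R))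
    (K : Fin s → Ideal (MvPolynomial σ R)) (𝔮 : Ideal (MvPolynomial σ R)) : Prop :=
  (C h ∉ 𝔮 → SmoothPt m J 𝔮) ∧ (C h ∈ 𝔮 → TorPt m e h J K 𝔮)

end Local

section Fibre

variable {E : Type} [Field E] [NumberField E] {m c : ℕ}

/-- The points over `P` are smooth or toroidal. -/
def TorOver (P : HeightOneSpectrum (𝓞 E)) {s : ℕ} (e : Fin s → ℕ) (h : 𝓞 E)
    (J : HomIdeal (𝓞 E) (m + c + 1)) (K : Fin s → HomIdeal (𝓞 E) (m + c + 1)) : Prop :=
  (∀ i, J.ideal ≤ (K i).ideal) ∧ (∀ i, C h ∈ (K i).ideal) ∧ (∀ i, (e i : 𝓞 E) ∉ P.asIdeal) ∧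
  ∀ (i : Fin (m + c + 1)) (𝔮 : Ideal (MvPolynomial {l : Fin (m + c + 1) // l ≠ i} (𝓞 E))),
    𝔮.IsPrime → dId J i ≤ 𝔮 → P.asIdeal.map C ≤ 𝔮 →
      TorGood m e h (dId J i) (fun j => dId (K j) i) 𝔮

end Fibre

section Family

variable {E : Type} [Field E] [NumberField E] {ι : Type} {m c : ℕ}

/-- Outside of a closed subset of codimension at least two of the affine space over `E`, the family
is smooth where `h` is not zero and toroidal where `h` is zero: there are homogeneous ideals `K i`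
which contain `J` and `h`, positive exponents `e i` and polynomials `g`, `G` without a common
factor such that this holds at all points in characteristic zero where `g` or `G` does not
vanish. -/
def TorCodim (J : HomIdeal (MvPolynomial ι (𝓞 E)) (m + c + 1)) : Prop :=
  ∃ (s : ℕ) (e : Fin s → ℕ) (h : MvPolynomial ι (𝓞 E))
    (K : Fin s → HomIdeal (MvPolynomial ι (𝓞 E)) (m + c + 1)) (g G : MvPolynomial ι (𝓞 E)),
    (∀ i, 0 < e i) ∧ h ≠ 0 ∧ (∀ i, J.ideal ≤ (K i).ideal) ∧ (∀ i, C h ∈ (K i).ideal) ∧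
    IsRelPrime (MvPolynomial.map (algebraMap (𝓞 E) E) g) (MvPolynomial.map (algebraMap (𝓞 E) E) G) ∧
    ∀ (i : Fin (m + c + 1))
      (𝔮 : Ideal (MvPolynomial {l : Fin (m + c + 1) // l ≠ i} (MvPolynomial ι (𝓞 E)))),
      𝔮.IsPrime → dId J i ≤ 𝔮 → (∀ z : 𝓞 E, C (C z) ∈ 𝔮 → z = 0) → (C g ∉ 𝔮 ∨ C G ∉ 𝔮) →
        TorGood m e h (dId J i) (fun j => dId (K j) i) 𝔮

end Family

end Pool.Agent.Lib.MP_6a3dac_ag.Tor
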