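import Pool.Agent.Lib.MP_6a3dac_ag.Tor.T9
import Pool.Agent.Lib.MP_6a3dac_ag.Mg.G046
import Pool.Agent.Lib.MP_6a3dac_ag.Mg.G022
import Pool.Agent.Lib.MP_6a3dac_ag.Mg.G043

/-!
# The theorems on the families
-/

set_option autoImplicit false

namespace Pool.Agent.Lib.MP_6a3dac_ag.Tor

open MvPolynomial CategoryTheory Limits AlgebraicGeometry NumberField IsDedekindDomain Filter
open Pool.Agent.Lib.MP_6a3dac_ag.DNF Pool.Agent.Lib.MP_6a3dac_ag.Bert
open Pool.Agent.Lib.MP_6a3dac_ag.Fam Pool.Agent.Lib.MP_6a3dac_ag.Blow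

variable {E : Type} [Field E] [NumberField E] {ι : Type} {m c : ℕ}

/-- The members with a smooth generic fibre have regular models near almost all primes, outside of
a closed subset of codimension two. -/
theorem exists_local [Finite ι] {J : HomIdeal (MvPolynomial ι (𝓞 E)) (m + c + 1)}
    (h2 : NodalCodim J ∨ TorCodim J) :
    ∃ g G : MvPolynomial ι (𝓞 E), IsRelPrime (MvPolynomial.map (algebraMap (𝓞 E) E) g)
      (MvPolynomial.map (algebraMap (𝓞 E) E) G) ∧ ∃ m₀ : 𝓞 E, m₀ ≠ 0 ∧
      ∀ P : HeightOneSpectrum (𝓞 E), m₀ ∉ P.asIdeal → ∀ a : ι → 𝓞 E,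
        (eval a g ∉ P.asIdeal ∨ eval a G ∉ P.asIdeal) →
          ∀ a' : ι → 𝓞 E, (∀ i, a' i - a i ∈ P.asIdeal) → GenFibreSmooth (fib J a') →
            HasModelAt E P (hProjTo (bc (algebraMap (𝓞 E) E) (fib J a'))) := by
  rcases h2 with ⟨g, G, hrel, H⟩ | ⟨s', e, h, K, g, G, he, _, hJK, hhK, hrel, H⟩
  · obtain ⟨m₀, hm₀, hm⟩ := exists_nodal H
    refine ⟨g, G, hrel, m₀, hm₀, fun P hP a ha a' ha' hgen => ?_⟩
    exact LocOK.hasModelAt (Or.inl ((hm P hP a ha).congr ha')) hgen
  · obtain ⟨m₀, hm₀, hm⟩ := exists_torOver he hJK hhK H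
    refine ⟨g, G, hrel, m₀, hm₀, fun P hP a ha a' ha' hgen => ?_⟩
    refine hasModelAt_of_torOver hgen he (hm P hP a' ?_)
    refine ha.imp (fun h3 h4 => h3 ?_) (fun h3 h4 => h3 ?_)
    · have h5 := P.asIdeal.sub_mem h4 (t7_eval_sub P.asIdeal g ha')
      rwa [sub_sub_cancel] at h5
    · have h5 := P.asIdeal.sub_mem h4 (t7_eval_sub P.asIdeal G ha')
      rwa [sub_sub_cancel] at h5

theorem lowerDens_mono {s : ℕ} (b : Module.Basis (Fin s) ℤ (𝓞 E)) [Fintype ι] [DecidableEq ι]
    {S S' : (ι → 𝓞 E) → Prop} (h : ∀ a, S a → S' a) : lowerDens b S ≤ lowerDens b S' := by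
  refine liminf_le_liminf (Eventually.of_forall fun H => ?_) ?_ ?_
  · rw [ff4_proportion, ff4_proportion]
    exact Maj.prop_mono (fun u hu => h _ hu) H
  · refine ⟨0, ?_⟩
    rw [eventually_map]
    refine Eventually.of_forall fun H => ?_
    rw [ff4_proportion]
    exact Maj.prop_nonneg _ H
  · refine IsBoundedUnder.isCoboundedUnder_ge ⟨1, ?_⟩
    rw [eventually_map]
    refine Eventually.of_forall fun H => ?_
    rw [ff4_proportion]
    exact ff4_prop_le_one _ H

/-- For every `ε > 0` there is a finite set of primes such that all members outside of a set of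
upper density at most `ε` have proper flat models which are regular at all points which do not lie
over a prime in this set. -/
theorem families_away {s : ℕ} (b : Module.Basis (Fin s) ℤ (𝓞 E)) [Fintype ι] [DecidableEq ι]
    (J : HomIdeal (MvPolynomial ι (𝓞 E)) (m + c + 1)) (h1 : GenSmooth J)
    (h2 : NodalCodim J ∨ TorCodim J) {ε : ℝ} (hε : 0 < ε) :
    ∃ S : Finset (HeightOneSpectrum (𝓞 E)), 1 - ε ≤ lowerDens b fun a =>
      GenFibreSmooth (fib J a) ∧
        ModelOn E {P | P ∉ S} (hProjTo (bc (algebraMap (𝓞 E) E) (fib J a))) := by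
  obtain ⟨g, G, hrel, m₀, hm₀, h⟩ := exists_local h2
  obtain ⟨S, hS⟩ := families_away_abs b J h1 hrel hm₀ h hε
  refine ⟨S, hS.trans (lowerDens_mono b fun a ha => ⟨ha.1, ?_⟩)⟩
  exact modelOn_compl_of_forall_hasModelAt (S := (S : Set (HeightOneSpectrum (𝓞 E)))) ha.1
    fun P hP => ha.2 P hP

/-- **Families with one parameter.** There is a finite set of primes such that all members with a
smooth generic fibre have proper flat models which are regular at all points which do not lie over a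
prime in this set. -/
theorem uniform_away [Finite ι] [Subsingleton ι]
    {J : HomIdeal (MvPolynomial ι (𝓞 E)) (m + c + 1)} (h2 : NodalCodim J ∨ TorCodim J) :
    ∃ S : Finset (HeightOneSpectrum (𝓞 E)), ∀ a : ι → 𝓞 E, GenFibreSmooth (fib J a) →
      ModelOn E {P | P ∉ S} (hProjTo (bc (algebraMap (𝓞 E) E) (fib J a))) := by
  obtain ⟨z, hz, H⟩ := exists_uniform h2
  refine ⟨(finite_mem_prime hz).toFinset, fun a hgen => ?_⟩
  refine modelOn_compl_of_forall_hasModelAt
    (S := ((finite_mem_prime hz).toFinset : Set (HeightOneSpectrum (𝓞 E)))) hgen fun P hP => ?_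
  refine H P (fun h => hP ?_) a hgen
  simpa using h

end Pool.Agent.Lib.MP_6a3dac_ag.Tor
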