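import Pool.Agent.Lib.MP_6a3dac_ag.Mg.G046
import Pool.Agent.Lib.MP_6a3dac_ag.Mg.G016
import Pool.Agent.Lib.MP_6a3dac_ag.Mg.G022

/-!
# Families without an exceptional locus: almost all primes are good for all members
-/

set_option autoImplicit false

namespace Pool.Agent.Lib.MP_6a3dac_ag.Tor

open MvPolynomial CategoryTheory Limits AlgebraicGeometry NumberField IsDedekindDomain Filter
open Pool.Agent.Lib.MP_6a3dac_ag.DNF Pool.Agent.Lib.MP_6a3dac_ag.Bert
open Pool.Agent.Lib.MP_6a3dac_ag.Fam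

variable {E : Type} [Field E] [NumberField E] {ι : Type} {m c : ℕ}

theorem t9_pir (K σ : Type) [Field K] [Subsingleton σ] :
    IsPrincipalIdealRing (MvPolynomial σ K) := by
  rcases isEmpty_or_nonempty σ with h | h
  · exact IsPrincipalIdealRing.of_surjective (isEmptyAlgEquiv K σ).symm.toRingEquiv.toRingHom
      (isEmptyAlgEquiv K σ).symm.surjective
  · obtain ⟨x⟩ := h
    let _ : Unique σ := ⟨⟨x⟩, fun y => Subsingleton.elim y x⟩
    exact IsPrincipalIdealRing.of_surjective (uniqueAlgEquiv K σ).symm.toRingEquiv.toRingHom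
      (uniqueAlgEquiv K σ).symm.surjective

/-- Clearing denominators. -/
theorem t9_clear {g G : MvPolynomial ι (𝓞 E)}
    (h : IsCoprime (MvPolynomial.map (algebraMap (𝓞 E) E) g)
      (MvPolynomial.map (algebraMap (𝓞 E) E) G)) :
    ∃ z : 𝓞 E, z ≠ 0 ∧ ∃ A B : MvPolynomial ι (𝓞 E), A * g + B * G = C z := by
  obtain ⟨A, B, hAB⟩ := h
  obtain ⟨n, hn, A₀, hA⟩ := exists_C_mul_eq (R := 𝓞 E) (nonZeroDivisors (𝓞 E)) A
  obtain ⟨n', hn', B₀, hB⟩ := exists_C_mul_eq (R := 𝓞 E) (nonZeroDivisors (𝓞 E)) B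
  refine ⟨n * n', mul_ne_zero (nonZeroDivisors.ne_zero hn) (nonZeroDivisors.ne_zero hn'),
    C n' * A₀, C n * B₀, ?_⟩
  apply MvPolynomial.map_injective (algebraMap (𝓞 E) E) (FaithfulSMul.algebraMap_injective _ _)
  rw [map_add, map_mul, map_mul, map_mul, map_mul, map_C, map_C, map_C, hA, hB, map_mul, C_mul]
  linear_combination C (algebraMap (𝓞 E) E n) * C (algebraMap (𝓞 E) E n') * hAB

omit [NumberField E] in
theorem t9_notMem {g G : MvPolynomial ι (𝓞 E)} {z : 𝓞 E}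
    (h : ∃ A B : MvPolynomial ι (𝓞 E), A * g + B * G = C z) {P : HeightOneSpectrum (𝓞 E)}
    (hz : z ∉ P.asIdeal) (a : ι → 𝓞 E) : eval a g ∉ P.asIdeal ∨ eval a G ∉ P.asIdeal := by
  obtain ⟨A, B, hAB⟩ := h
  by_contra hcon
  push Not at hcon
  apply hz
  have h1 := congrArg (eval a) hAB
  rw [map_add, map_mul, map_mul, eval_C] at h1
  rw [← h1]
  exact P.asIdeal.add_mem (P.asIdeal.mul_mem_left _ hcon.1) (P.asIdeal.mul_mem_left _ hcon.2)

variable {J : HomIdeal (MvPolynomial ι (𝓞 E)) (m + c + 1)}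

/-- The members of a family with nondegenerate double points and without an exceptional locus have
models near almost all primes. -/
theorem uniform_nodal [Finite ι] {g G : MvPolynomial ι (𝓞 E)}
    (hco : IsCoprime (MvPolynomial.map (algebraMap (𝓞 E) E) g)
      (MvPolynomial.map (algebraMap (𝓞 E) E) G))
    (H : ∀ (i : Fin (m + c + 1))
      (𝔮 : Ideal (MvPolynomial {l : Fin (m + c + 1) // l ≠ i} (MvPolynomial ι (𝓞 E)))),
      𝔮.IsPrime → dId J i ≤ 𝔮 → (∀ z : 𝓞 E, C (C z) ∈ 𝔮 → z = 0) → (C g ∉ 𝔮 ∨ C G ∉ 𝔮) →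
        NodalPt m (dId J i) 𝔮) :
    ∃ z : 𝓞 E, z ≠ 0 ∧ ∀ P : HeightOneSpectrum (𝓞 E), z ∉ P.asIdeal → ∀ a : ι → 𝓞 E,
      GenFibreSmooth (fib J a) → HasModelAt E P (hProjTo (bc (algebraMap (𝓞 E) E) (fib J a))) := by
  obtain ⟨m₀, hm₀, hm⟩ := exists_nodal H
  obtain ⟨z, hz, hAB⟩ := t9_clear hco
  refine ⟨m₀ * z, mul_ne_zero hm₀ hz, fun P hP a hgen => ?_⟩
  have h1 : m₀ ∉ P.asIdeal := fun h => hP (Ideal.mul_mem_right _ _ h)
  have h2 : z ∉ P.asIdeal := fun h => hP (Ideal.mul_mem_left _ _ h)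
  exact LocOK.locGood (Or.inl (hm P h1 a (t9_notMem hAB h2 a))) a (fun _ => rfl) hgen

/-- The members of a toroidal family without an exceptional locus have models near almost all
primes. -/
theorem uniform_tor [Finite ι] {s : ℕ} {e : Fin s → ℕ} {h g G : MvPolynomial ι (𝓞 E)}
    {K : Fin s → HomIdeal (MvPolynomial ι (𝓞 E)) (m + c + 1)}
    (hco : IsCoprime (MvPolynomial.map (algebraMap (𝓞 E) E) g)
      (MvPolynomial.map (algebraMap (𝓞 E) E) G))
    (he : ∀ i, 0 < e i) (hJK : ∀ i, J.ideal ≤ (K i).ideal) (hhK : ∀ i, C h ∈ (K i).ideal)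
    (H : ∀ (i : Fin (m + c + 1))
      (𝔮 : Ideal (MvPolynomial {l : Fin (m + c + 1) // l ≠ i} (MvPolynomial ι (𝓞 E)))),
      𝔮.IsPrime → dId J i ≤ 𝔮 → (∀ z : 𝓞 E, C (C z) ∈ 𝔮 → z = 0) → (C g ∉ 𝔮 ∨ C G ∉ 𝔮) →
        TorGood m e h (dId J i) (fun j => dId (K j) i) 𝔮) :
    ∃ z : 𝓞 E, z ≠ 0 ∧ ∀ P : HeightOneSpectrum (𝓞 E), z ∉ P.asIdeal → ∀ a : ι → 𝓞 E,
      GenFibreSmooth (fib J a) → HasModelAt E P (hProjTo (bc (algebraMap (𝓞 E) E) (fib J a))) := by
  obtain ⟨m₀, hm₀, hm⟩ := exists_torOver he hJK hhK H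
  obtain ⟨z, hz, hAB⟩ := t9_clear hco
  refine ⟨m₀ * z, mul_ne_zero hm₀ hz, fun P hP a hgen => ?_⟩
  have h1 : m₀ ∉ P.asIdeal := fun h => hP (Ideal.mul_mem_right _ _ h)
  have h2 : z ∉ P.asIdeal := fun h => hP (Ideal.mul_mem_left _ _ h)
  exact hasModelAt_of_torOver hgen he (hm P h1 a (t9_notMem hAB h2 a))

/-- **Families with one parameter.** At almost all primes all smooth members have models. -/
theorem exists_uniform [Finite ι] [Subsingleton ι] (h : NodalCodim J ∨ TorCodim J) :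
    ∃ z : 𝓞 E, z ≠ 0 ∧ ∀ P : HeightOneSpectrum (𝓞 E), z ∉ P.asIdeal → ∀ a : ι → 𝓞 E,
      GenFibreSmooth (fib J a) → HasModelAt E P (hProjTo (bc (algebraMap (𝓞 E) E) (fib J a))) := by
  have := t9_pir E ι
  rcases h with ⟨g, G, hrel, H⟩ | ⟨s', e, h, K, g, G, he, _, hJK, hhK, hrel, H⟩
  · exact uniform_nodal (IsRelPrime.isCoprime hrel) H
  · exact uniform_tor (IsRelPrime.isCoprime hrel) he hJK hhK H

/-- **Families with one parameter.** At almost all primes all classes are good. -/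
theorem exists_uniform_locGood [Finite ι] [Subsingleton ι] (h : NodalCodim J ∨ TorCodim J) :
    ∃ z : 𝓞 E, z ≠ 0 ∧ ∀ P : HeightOneSpectrum (𝓞 E), z ∉ P.asIdeal →
      ∀ k x, LocGood J P k x := by
  obtain ⟨z, hz, H⟩ := exists_uniform h
  exact ⟨z, hz, fun P hP k x a _ hgen => H P hP a hgen⟩

/-- All members have models if and only if they have models near finitely many primes. -/
theorem exists_uniform_hasModel [Finite ι] [Subsingleton ι] (h : NodalCodim J ∨ TorCodim J) :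
    ∃ z : 𝓞 E, z ≠ 0 ∧ ∀ a : ι → 𝓞 E, GenFibreSmooth (fib J a) →
      (∀ P : HeightOneSpectrum (𝓞 E), z ∈ P.asIdeal →
        HasModelAt E P (hProjTo (bc (algebraMap (𝓞 E) E) (fib J a)))) → HasModel (fib J a) := by
  obtain ⟨z, hz, H⟩ := exists_uniform h
  refine ⟨z, hz, fun a hgen ha => hasModel_of_forall_hasModelAt hgen fun P => ?_⟩
  by_cases hP : z ∈ P.asIdeal
  · exact ha P hP
  · exact H P hP a hgen

/-- **Families with one parameter.** All smooth members have models which are regular outside of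
one finite set of primes. -/
theorem uniform_of_subsingleton [Finite ι] [Subsingleton ι]
    (J : HomIdeal (MvPolynomial ι (𝓞 E)) (m + c + 1)) (h2 : NodalCodim J ∨ TorCodim J) :
    ∃ S : Finset (HeightOneSpectrum (𝓞 E)), ∀ a : ι → 𝓞 E, GenFibreSmooth (fib J a) →
      ModelOn E {P | P ∉ S} (hProjTo (bc (algebraMap (𝓞 E) E) (fib J a))) := by
  classical
  obtain ⟨z, hz, H⟩ := exists_uniform h2
  refine ⟨(finite_mem_prime hz).toFinset, fun a hgen => ?_⟩
  refine modelOn_compl_of_forall_hasModelAt (S := {P | P ∈ (finite_mem_prime hz).toFinset}) hgen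
    fun P hP => H P (fun h => hP ?_) a hgen
  exact (Set.Finite.mem_toFinset _).2 h

end Pool.Agent.Lib.MP_6a3dac_ag.Tor
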